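import Pool.Agent.Y95.KM.Over

/-!
# The relative nef cone conjecture for all bases is equivalent to the reducibility of classes

Let `(X/Z, Δ)` be a klt log Calabi–Yau pair over `Z`. A nef class `x` which is not effective is called
reducible if its translates by automorphisms of `(X/Z, Δ)` accumulate at a class `y ≠ x` with `x - y`
nef (for instance: some automorphisms make `x` arbitrarily small).

Consider a family of pairs `X/Z` which contains with `X/Z` the pairs `X/B` for the contractions `X → B`
over `Z` (with `dim B > dim Z`), and assume abundance for its members: every nonzero effective nef class
is the pullback of an ample class under such a contraction `X → B` (where the nef cone is rational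
polyhedral near the class, this is not needed). Then the cone conjecture holds for all members of the
family if and only if for all members of the family the nef classes which are not effective are
reducible.

In `MP_20d318_ag.ReducibilityCriterion` there is a single `X/Z`, and the covering part of the relative
cone conjecture over `B` is a hypothesis; here no case of the conjecture is assumed. The relation
between `X/Z` and `X/B` (`IsOver`) contains: nef classes which are numerically trivial over `B` are
pulled back from `B`; `Aut(X/B)` acts on `N^1(X/Z)`; finitely many classes which are nef and effective
over `B` can be lifted, and the Mordell–Weil translations over `B` cover the difference between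
`N^1(X/B)` and the space of classes modulo pullbacks from `B`.

Proof: by induction on the Picard number the cone conjecture holds for `X/B`, so the ample classes of
`X`, modulo pullbacks from `B`, are covered by the translates of a finitely generated cone under
automorphisms which fix the pullbacks. The nef classes of norm `1` which have minimal degree `ξ` in
their orbits form a compact set `K`, where `ξ` is an integral form which is positive on the nef cone.
Reducible classes are not in `K`. Let `y` in `K` be pulled back from an ample class on `B`, and let `x`
be ample, minimal and close to `y`. Some automorphism `a` brings `x` into `v + g`, where `v` is a
pullback from `B` and `g` is a combination of finitely many integral nef classes. The degree of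
`x = v + a⁻¹ g` on contracted curves is small, and these degrees are integers on integral classes, so
`g` is small; minimality shows that `a⁻¹ g` is small, so `v` is close to `y`, and `a x` is in a fixed
rational polyhedral cone. By compactness the ample cone is covered by the translates of one rational
polyhedral cone, and a theorem of Looijenga gives the fundamental domain. For the other direction see
`MP_20d318_ag.ReducibilityCriterion`.
-/

set_option autoImplicit false

namespace Pool.Agent.Results.MP_20d318_ag.AllBases

open Pool.Agent.Y95.KM

theorem result {ι : Type*} {W A : ι → Type*} [∀ i, NormedAddCommGroup (W i)]
    [∀ i, NormedSpace ℝ (W i)] [∀ i, Group (A i)]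
    -- a family of pairs `X/Z`: `N^1(X/Z)` with its cones and the action of the automorphisms
    (X : ∀ i, Num (W i) (A i)) (hX : ∀ i, (X i).Good)
    -- the effective nef classes of the members of the family are polyhedral or pulled back from
    -- contractions `X → B` such that `X/B` is in the family
    (hover : ∀ i, ∀ y ∈ (X i).nefEff, y ≠ 0 → (X i).PolyhedralAt y ∨
      ∃ j, ∃ V : Submodule ℝ (W i), ∃ p : W i →ₗ[ℝ] W j, (X i).IsOver (X j) V p ∧
        (X i).AmpleOn V y) :
    (∀ i, (X i).ConeConj) ↔ ∀ i, ∀ x ∈ (X i).nef, x ∉ (X i).eff → (X i).Reducible x :=
  family X hX hover

end Pool.Agent.Results.MP_20d318_ag.AllBases
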