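import Pool.Agent.Y95.KM.Fib

/-!
# The relative nef cone conjecture and the nef classes which are not effective

Let `(X/Z, Δ)` be a klt log Calabi–Yau pair over `Z`. A nef class `x` which is not effective is called
reducible if its translates by automorphisms of `(X/Z, Δ)` accumulate at a class `y ≠ x` with `x - y`
nef (for instance: some automorphisms make `x` arbitrarily small).

(1) If the cone conjecture holds for `(X/Z, Δ)`, every nef class which is not effective is reducible.

(2) Conversely, suppose that every nonzero effective nef class `y` is of one of the two kinds:
* the nef cone is rational polyhedral near `y` (for instance: `y` is big),
* `y` is the pullback of an ample class under a contraction `X → B` over `Z` (abundance), and the classes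
  modulo the pullbacks from `B` are covered by the translates of a rational polyhedral cone
  under automorphisms which fix these pullbacks (the covering part of the cone conjecture
  over `B`).
If every nef class which is not effective is reducible, then the cone conjecture holds for
`(X/Z, Δ)`.

So for these `X/Z` the cone conjecture is equivalent to a statement on the orbits of the classes on
the boundary of the nef cone which are not effective. This is the analogue of the theorem of Beardon
and Maskit: a Kleinian group is geometrically finite if and only if every limit point is a conical
limit point or a bounded parabolic point.

Proof of (1): let the ample classes `x_n` tend to `x`, and choose an integral form `ξ` which is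
positive on the nef cone. By Dickson's lemma the translates of `x_n` with minimal degree `ξ` can be
taken in finitely many translates of the rational polyhedral fundamental domain. Their coefficients
with respect to the generators are bounded; a subsequence converges to a class `u`. Minimality
shows that `u` is an accumulation point of the orbit of `x`. The translates of the generators which
occur in `u` are bounded integral classes, so they take finitely many values, and the
corresponding translate `y` of `u` is effective with `x - y` nef.

Proof of (2): the nef classes of norm `1` which have minimal degree `ξ` in their orbits form a compact
set `K`. Reducible classes are not in `K`. Let `y` in `K` be pulled back from an ample class on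
`B`, and let `x` be ample, minimal and close to `y`. Some automorphism `a` which fixes the pullbacks
from `B` brings `x` into `v + g`, where `v` is a pullback and `g` is a combination of finitely many
integral nef classes. The degree of `x = v + a⁻¹ g` on contracted curves is small, and these degrees are
integers on integral classes, so `g` is small; minimality shows that `a⁻¹ g` is small, so `v` is close
to `y`, and `a x` is in a fixed rational polyhedral cone. By compactness the ample cone is covered by
the translates of one rational polyhedral cone, and a theorem of Looijenga gives the fundamental
domain.
-/

set_option autoImplicit false

namespace Pool.Agent.Results.MP_20d318_ag.ReducibilityCriterion

open Pool.Agent.Y95.KM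

theorem result {W A : Type*} [NormedAddCommGroup W] [NormedSpace ℝ W] [Group A]
    -- `N^1(X/Z)` with its cones and the action of the automorphisms of `(X/Z, Δ)`
    (X : Num W A) (hX : X.Good) :
    -- the cone conjecture implies the reducibility of the nef classes which are not effective
    (X.ConeConj → ∀ x ∈ X.nef, x ∉ X.eff → X.Reducible x) ∧
    -- the converse, if effective nef classes are polyhedral or pulled back from fibrations which
    -- satisfy the covering part of the cone conjecture
    ((∀ x ∈ X.nefEff, x ≠ 0 → X.PolyhedralAt x ∨ X.FibredAt x) →
      (∀ x ∈ X.nef, x ∉ X.eff → X.Reducible x) → X.ConeConj) :=
  ⟨fun hc x hx hxe => reducible_of_conj hX hc hx hxe,
    fun heff hred => conj_of_fibred hX heff hred⟩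

end Pool.Agent.Results.MP_20d318_ag.ReducibilityCriterion
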