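import Pool.Agent.Y95.KM.Main2

/-!
# The relative nef cone conjecture for quotients by finite groups acting on the base

Let `(X/Z, Δ)` be a klt log Calabi–Yau pair over `Z` and `G` a finite group which acts on `X` and on `Z`
so that `X → Z` is equivariant and `Δ` is invariant. Let `Y = X/G`, `Z' = Z/G` and let `Δ_Y` be the
boundary with `K_X + Δ = π^*(K_Y + Δ_Y)`. If the cone conjecture holds for `(X/Z, Δ)`, then it holds
for `(Y/Z', Δ_Y)`, and for every contraction `V` of `Y` over `Z'` (with the push-forward of `Δ_Y`, if
the contraction is birational).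

The elements of `G` are not automorphisms of `X` over `Z`, and the kernel of the action of the
automorphisms of `X` over `Z` on `N^1(X/Z)` contains a Mordell–Weil group `T`, which is infinite and
not divisible in general. The proof uses the Siegel property of the action of the group `A` generated
by `G` and `Aut(X/Z, Δ)`, and the finiteness of `H^1(G', T)` for the finite groups `G'` which act
on `T`.
-/

set_option autoImplicit false

namespace Pool.Agent.Results.MP_20d318_ag.RelativeQuotients

open Pool.Agent.Y95.KM

theorem result {W A : Type} [NormedAddCommGroup W] [NormedSpace ℝ W] [Group A]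
    {W₁ B₁ : Type} [NormedAddCommGroup W₁] [NormedSpace ℝ W₁] [Group B₁]
    {W₂ B₂ : Type} [NormedAddCommGroup W₂] [NormedSpace ℝ W₂] [Group B₂]
    -- `N^1(X/Z)` with the action of the group `A` generated by `H = Aut(X/Z, Δ)` and `G`
    (X : Num W A) (hX : X.Good) (H G : Subgroup A) [Finite G]
    (hHG : ∀ a, ∃ g ∈ G, ∃ b ∈ H, a = g * b) (hker : X.MordellWeilKernel H)
    -- the quotient `Y/Z'`
    (Y : Num W₁ B₁) (hY : Y.Good) (q : W₁ →ₗ[ℝ] W) (hquot : X.IsQuotientRel H G Y q)
    -- a contraction `V/Z'` of `Y/Z'`
    (V : Num W₂ B₂) (hV : V.Good) (r : W₂ →ₗ[ℝ] W₁) (hcontr : Y.IsContraction V r)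
    -- the cone conjecture for `(X/Z, Δ)`
    (hconj : (X.restrict H).ConeConj) :
    -- the cone conjecture for `(Y/Z', Δ_Y)` and for `V/Z'`
    Y.ConeConj ∧ V.ConeConj :=
  ⟨descend_mw hX hHG hker hY hquot hconj,
    contract hY hV hcontr (descend_mw hX hHG hker hY hquot hconj)⟩

end Pool.Agent.Results.MP_20d318_ag.RelativeQuotients
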