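import Pool.Agent.Y167.CCMain

set_option autoImplicit false

/-!
# The relative nef cone conjecture for pairs on quotients of complex tori by finite groups

Let `X = V / Γ` be a projective quotient of a complex torus (an abelian variety) by any finite group,
of any dimension. The group may contain reflections, so that `K_X` need not be trivial. Let
`X → Z = W / Γ'` be a fibration, given by a linear map `π : V → W`, and `Δ` an effective divisor on `X`
with real coefficients such that `K_X + Δ` is numerically trivial over `Z`. The theorem says that the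
cone `A^e(X/Z)` of nef and effective classes has a rational polyhedral fundamental domain for the
action of `Aut(X/Z, Δ)`.

The proof: the restrictions of the Chern forms to `U = ker π` are invariant hermitian forms, and they
are given by self-adjoint elements of the algebra of endomorphisms of the torus `U / (U ∩ Λ)` which
commute with the finite group. Reduction theory (a version of Voronoi's theory of perfect forms for an
order in a real algebra with a positive involution) covers the positive definite forms by the
translates, under the units of the order, of the cone spanned by finitely many integral semidefinite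
forms. Units in a subgroup of finite index extend to affine automorphisms of `V` which normalise `Γ`,
act trivially on `W` and move points only in directions parallel to all mirrors of `Γ`. The Chern form
of `K_X` vanishes in these directions, hence so do the Chern forms of the components of `Δ`, whose
sections are then invariant by Liouville's theorem. A semidefinite rational invariant form is the
class of a base point free line bundle, by a construction with products of theta functions. A
Dirichlet domain of a rational linear form with trivial stabiliser is a fundamental domain.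

`latt`, `IsTorusQuotient` and `LineBundle` are defined in `Pool.Agent.W594.SYZ.Defs2`; `IsChernForm`
and `IsPositiveForm` in `Pool.Agent.W594.SYZ.TQDefs`; `IsFibration` in `Pool.Agent.TH735.AQ.Defs`;
`IsRamification` and `IsLogPluricanonical` in `Pool.Agent.TH735.AQ.MirDefs`; `AffGrp`, `EffDiv`,
`NumTrivial` and `Normalizes` in `Pool.Agent.Y167.Defs`; `LinGrp`, `Preserves`, `IsFundDomain`, `N1`,
`integral`, `nefCone`, `effCone` and `IsPullback` in `Pool.Agent.Y167.Stm`; `cone` in
`Pool.Agent.Y167.ConeDef`.
-/

namespace Pool.Agent.Results.MP_20d318_ag.TorusQuotients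

open Pool.Agent.W594.SYZ2 Pool.Agent.TH735.AQ
open Pool.Agent.Y167 (AffGrp EffDiv NumTrivial Normalizes cone rel_of_emb)
open Pool.Agent.Y167.CC

/-- The affine transformation `f` of `V` induces an automorphism over `Z = W / Γ'`. -/
def Over {V W : Type*} [NormedAddCommGroup V] [NormedSpace ℂ V] [NormedAddCommGroup W]
    [NormedSpace ℂ W] (Γ' : AffGrp W) (π : V →ₗ[ℂ] W) (f : V ≃ᵃ[ℂ] V) : Prop :=
  ∃ δ ∈ Γ', ∀ v, π (f v) = δ (π v)

/-- `𝒢` is a group of linear automorphisms of `N^1(X/Z)` which preserves the integral classes and the
cone of nef and effective classes, and which contains the pullbacks `f^*` by all automorphisms of `X`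
over `Z` which are induced by affine transformations `f` of `V` and map `Δ` to itself. The image of
`Aut(X/Z, Δ)` has these properties. -/
structure IsAutGroup {V W E : Type*} [NormedAddCommGroup V] [NormedSpace ℂ V]
    [NormedAddCommGroup W] [NormedSpace ℂ W] [NormedAddCommGroup E] [NormedSpace ℂ E]
    {Γ : AffGrp V} (Γ' : AffGrp W) (π : V →ₗ[ℂ] W) {j : E →ₗ[ℂ] V} {ι : Type*} [Fintype ι]
    (Δ : EffDiv Γ ι) (𝒢 : LinGrp (N1 Γ j)) : Prop where
  int : Preserves 𝒢 (integral Γ j)
  nef_eff : Preserves 𝒢 (nefCone Γ j ∩ effCone Γ j)
  aff : ∀ f : V ≃ᵃ[ℂ] V, Normalizes Γ f → Over Γ' π f → (∀ v, Δ.mul (f v) = Δ.mul v) →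
    ∀ g, IsPullback f g → g ∈ 𝒢

/-- Let `X = V / Γ` be a projective torus quotient, `X → Z = W / Γ'` a fibration and `Δ` an effective
divisor with real coefficients on `X` such that `K_X + Δ` is numerically trivial over `Z`. Here `E` is
the kernel of `π`, embedded by `j`. There is a finite set `S` of integral classes such that the cone
`Π` spanned by `S` consists of nef effective classes and is a fundamental domain for the action of `𝒢`
on the cone `A^e(X/Z)` of nef effective classes. -/
theorem result {V W E : Type*} [NormedAddCommGroup V] [NormedSpace ℂ V] [FiniteDimensional ℂ V]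
    [NormedAddCommGroup W] [NormedSpace ℂ W] [FiniteDimensional ℂ W]
    [NormedAddCommGroup E] [NormedSpace ℂ E] [FiniteDimensional ℂ E]
    (Γ : AffGrp V) (hΓ : IsTorusQuotient Γ)
    (hproj : ∃ (L : LineBundle Γ) (H : V → V → ℂ), IsChernForm L H ∧ IsPositiveForm H)
    (Γ' : AffGrp W) (π : V →ₗ[ℂ] W) (hπ : IsFibration Γ Γ' π)
    (j : E →ₗ[ℂ] V) (hj : Function.Injective j) (hjr : LinearMap.range j = LinearMap.ker π)
    {ι : Type*} [Fintype ι] (Δ : EffDiv Γ ι) (hΔ : NumTrivial Δ j)
    (𝒢 : LinGrp (N1 Γ j)) (h𝒢 : IsAutGroup Γ' π Δ 𝒢) :
    ∃ S : Finset (N1 Γ j), ↑S ⊆ integral Γ j ∧ cone S ⊆ nefCone Γ j ∩ effCone Γ j ∧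
      IsFundDomain 𝒢 (nefCone Γ j ∩ effCone Γ j) (cone S) := by
  obtain ⟨L, H, hc, hp⟩ := hproj
  exact core_int (rel_of_emb hj hjr hΓ hπ hc hp) Δ hΔ 𝒢 h𝒢.int h𝒢.nef_eff
    (fun f hf hf2 hf3 g hg => h𝒢.aff f hf ⟨1, Γ'.one_mem, fun v => by
      obtain ⟨e, he⟩ := hf2 v
      have h5 : π (j e) = 0 := by
        have h6 : j e ∈ LinearMap.ker π := hjr ▸ LinearMap.mem_range_self j e
        exact h6
      rw [he, map_add, h5, add_zero]
      rfl⟩ hf3 g hg)

end Pool.Agent.Results.MP_20d318_ag.TorusQuotients
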